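import Mathlib
import Pool.Agent.H.MP_827700_an.A

set_option autoImplicit false

namespace Pool.Agent.Results.MP_5d7a45_an.Yes

open Set Filter Topology MeasureTheory ExpGrowth Pool.Agent.H.MP_827700_an
open scoped Pointwise

theorem result (G : Type) [AddCommGroup G] [TopologicalSpace G] [IsTopologicalAddGroup G] [T2Space G]
    [LocallyCompactSpace G] [MeasurableSpace G] [BorelSpace G] (μ : Measure G) [μ.IsAddHaarMeasure]
    (φ : G →+ G) (hφ : Continuous φ) (K : AddSubgroup G) [DiscreteTopology K] [CompactSpace (G ⧸ K)]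
    (hi : ∀ x ∈ K, φ x ∈ K) (ν : Measure K) [ν.IsAddHaarMeasure] : hA μ φ = hA ν (res φ K hi) := by
  let ψ := (φ.comp K.subtype).codRestrict K fun x => hi x x.2
  have e := (K.isClosed_of_discrete).isClosedEmbedding_subtypeVal
  refine le_antisymm (iSup₂_le fun C ⟨c, c0⟩ => ?_) (mono μ ν K.subtype e φ hφ ψ fun _ => rfl)
  have z := mem_interior_iff_mem_nhds.2 c0
  obtain ⟨t, ht⟩ := isCompact_univ.elim_finite_subcover
    (fun x : G => (QuotientAddGroup.mk : G → G ⧸ K) '' (x +ᵥ interior C))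
    (fun x => QuotientAddGroup.isOpenMap_coe _ (isOpen_interior.vadd x)) fun y _ => by
      obtain ⟨x, rfl⟩ := QuotientAddGroup.mk_surjective y
      exact mem_iUnion.2 ⟨x, x, ⟨0, z, by simp⟩, rfl⟩
  have d := (t.finite_toSet.insert 0).isCompact.add c
  have s : C ⊆ insert 0 (t : Set G) + C := subset_add_right _ (mem_insert _ _)
  obtain ⟨F, hF⟩ := ((d.image hφ).add d).elim_finite_subcover
    (fun k : K => (k : G) +ᵥ ((t : Set G) + interior C))
    (fun k => isOpen_interior.add_left.vadd _) fun y _ => by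
      obtain ⟨x, a, _, ⟨u, b, rfl⟩, f⟩ := mem_iUnion₂.1 (ht (mem_univ (y : G ⧸ K)))
      exact mem_iUnion.2 ⟨⟨_, QuotientAddGroup.eq.1 f⟩, x + u, add_mem_add a b, by simp; abel⟩
  refine (expGrowthSup_monotone fun n => measure_mono (T_mono φ s n)).trans (fin_le μ ν K.subtype e φ ψ
    continuous_of_discreteTopology (fun _ => rfl) d (s (mem_of_mem_nhds c0)) F F.finite_toSet fun x hx => ?_)
  obtain ⟨k, a, u, b, rfl⟩ := mem_iUnion₂.1 (hF hx)
  exact ⟨_, ⟨k, a, rfl⟩, u, add_subset_add (subset_insert _ _) interior_subset b, rfl⟩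

end Pool.Agent.Results.MP_5d7a45_an.Yes
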